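import Pool.Agent.Helper60.FS.Land
import Pool.Agent.Helper96.FS.Drift
import Pool.Agent.Helper3.AK.Defs

/-!
# Project FS (MP_75608d_al), middle levels: definitions

Conventions: letters, paths and known edges of `Pool.Agent.Helper60.FS` (`act`, `run`, `pe`, `ZZ`,
`FIX`), the sampler property and the difference of two systems of `Pool.Agent.Helper96.FS`
(`Sampler`, `pre`, `dif`), lazy law and gaps of `Pool.Agent.Helper3.AK`.
-/

set_option autoImplicit false

namespace Pool.Agent.Helper38.FS

open Finset Equiv
open Pool.Agent.Helper60.FS (act run pe ZZ FIX)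
open Pool.Agent.Helper96.FS (Sampler)
open Pool.Agent.Helper3.AK (Alt TupleGap lazyLaw)

/-- letters: `(i, true)` applies `z i`, `(i, false)` applies its inverse -/
abbrev Lt (K : ℕ) : Type := Fin K × Bool

/-- the inverse letter -/
def inv {K : ℕ} (l : Lt K) : Lt K := (l.1, !l.2)

/-- a letter or a lazy step (first coordinate `false`) -/
abbrev Sy (K : ℕ) : Type := Bool × Lt K

/-- lazy words -/
abbrev Wd (K J : ℕ) : Type := Fin J → Sy K

/-- the new letter is applied first -/
def push {K : ℕ} (l : Lt K) : List (Lt K) → List (Lt K)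
  | [] => [l]
  | a :: v => if a = inv l then v else l :: a :: v

/-- the reduced word of a lazy word -/
def rdw {K : ℕ} : (J : ℕ) → Wd K J → List (Lt K)
  | 0, _ => []
  | J + 1, w => if (w 0).1 = true then push (w 0).2 (rdw J (Fin.tail w)) else rdw J (Fin.tail w)

open Classical in
/-- probability of an event for a uniform lazy word -/
noncomputable def prW (K J : ℕ) (A : Wd K J → Prop) : ℝ :=
  ((univ.filter A).card : ℝ) / (4 * (K : ℝ)) ^ J

/-- the generators as permutations -/
def up {n K : ℕ} (z : Fin K → Alt n) : Fin K → Perm (Fin n) := fun i => (z i : Perm (Fin n))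

/-- the permutation of a word (the head is applied first) -/
def pm {n K : ℕ} (z : Fin K → Perm (Fin n)) : List (Lt K) → Perm (Fin n)
  | [] => 1
  | l :: v => pm z v * (if l.2 = true then z l.1 else (z l.1)⁻¹)

/-- the exit property fails: some point `p` of `P` has all its late vertices in `U` or on the
paths of the other points of `P` -/
def NE {n K : ℕ} (z : Fin K → Perm (Fin n)) (U P : Finset (Fin n)) (j0 : ℕ) (v : List (Lt K)) :
    Prop :=
  ∃ p ∈ P, ∀ t, j0 ≤ t → t ≤ v.length → run z (v.take t) p ∈ U ∨
    ∃ p' ∈ P, p' ≠ p ∧ ∃ t' ≤ v.length, run z (v.take t) p = run z (v.take t') p'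

/-- all edges of the paths of the points of `P` -/
def PE {n K : ℕ} (z : Fin K → Perm (Fin n)) (P : Finset (Fin n)) (v : List (Lt K)) :
    Finset (Fin K × Fin n × Fin n) := P.biUnion fun p => pe z v p

/-- the points on the edges of `H` -/
def vt {n K : ℕ} (H : Finset (Fin K × Fin n × Fin n)) : Finset (Fin n) :=
  H.image (fun e => e.2.1) ∪ H.image (fun e => e.2.2)

/-- good generators: gap on points and on pairs, and few words with many fixed points of a
subword -/
structure Good {n K : ℕ} (z : Fin K → Alt n) (J F0 : ℕ) (δ : ℝ) : Prop where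
  g1 : TupleGap z 1 (9 / 10)
  g2 : TupleGap z 2 (9 / 10)
  fx : prW K J (fun w => ¬ FIX (up z) (rdw J w) F0) ≤ δ

/-- probability that the lazy walk of length `t` fixes a uniform injective `r`-tuple -/
noncomputable def rp {n K : ℕ} (z : Fin K → Alt n) (t r : ℕ) : ℝ :=
  ∑ g : Perm (Fin n), lazyLaw z t g *
    (((univ.filter fun x => g x = x).card.descFactorial r : ℝ) / (n.descFactorial r : ℝ))

end Pool.Agent.Helper38.FS
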