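import Pool.Agent.Helper38.FS.Defs

/-!
# Project FS (MP_75608d_al), middle levels: goals

Order of the constants: `K` (at least `20000`), then `ε`, `C` (depending on `K` only), then `n₀`,
then everything else. All statements are uniform in the sets, permutations and levels `r`.
-/

set_option autoImplicit false

namespace Pool.Agent.Helper38.FS

open Finset Equiv Filter
open Pool.Agent.Helper60.FS (act run pe ZZ FIX)
open Pool.Agent.Helper96.FS (Sampler)
open Pool.Agent.Helper3.AK (Alt TupleGap lazyLaw)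
open Classical

/-- length of the blocks, even, about `200 log n` -/
noncomputable def jj (n : ℕ) : ℕ := 2 * ⌈100 * Real.log n⌉₊

/-- bound for the number of fixed points -/
noncomputable def f0 (n : ℕ) : ℕ := ⌈(n : ℝ) ^ (0.6 : ℝ)⌉₊

/-- number of points by which the two systems differ -/
noncomputable def MM (n r : ℕ) : ℕ := 8 * ⌈((n : ℝ) / r) * Real.log n⌉₊

/-- the window of levels -/
def Win (C β : ℝ) (n r : ℕ) : Prop :=
  1 ≤ r ∧ C * Real.log n ≤ (n : ℝ) / r ∧ (n : ℝ) / r ≤ (n : ℝ) ^ β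

/-- good generators with the final parameters -/
def GD {n K : ℕ} (z : Fin K → Alt n) : Prop := Good z (jj n) (f0 n) ((n : ℝ) ^ (-0.4 : ℝ))

/-- the sampler property with the final parameters -/
def SP {n K : ℕ} (z : Fin K → Alt n) (P : Finset (Fin n)) : Prop :=
  Sampler (lazyLaw z (jj n)) P (n / 51200) ((n : ℝ) ^ (-0.1 : ℝ))

/-- FX (helper33). Few words have a subword with many fixed points: first moment
(`∑ z, |Fix_z g| ≤ 2 |g|² (n!)^K` for every nonempty reduced word `g` with `2 |g| ≤ n`: if the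
path of `p` is closed, consider the first time `t` at which a vertex is repeated; the step `t` uses
an edge which is not yet known, because the word is reduced and the vertex before it was new, so
its end is one of the `t` old vertices with probability at most `t/(n-t)`), union over the at most
`J²` infixes, Markov. -/
def S_FX : Prop := ∀ K : ℕ, 1 ≤ K → ∃ n₀ : ℕ, ∀ n, n₀ ≤ n →
  ((univ.filter fun z : Fin K → Alt n =>
      (n : ℝ) ^ (-0.4 : ℝ) < prW K (jj n) (fun w => ¬ FIX (up z) (rdw (jj n) w) (f0 n))).card : ℝ) ≤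
    (n : ℝ) ^ (-0.1 : ℝ) * (Fintype.card (Fin K → Alt n) : ℝ)

/-- EXIT (helper33). By counting the letter words of each length `l`, `J / 10 ≤ l ≤ J`:
the path of `p` stays in `U` at the times `≥ J / 20` with probability at most
`(2l+1) √n (11/20 + 1/50)^(2 (l - J/20))`, and the times `s < s'`, `s' ≥ J / 20`, with
`v_{s'} a = v_s b`, `a ≠ b` in `P`, have probability at most `5 (2l+1) / n` each. -/
def S_EXIT : Prop := ∀ K : ℕ, 20000 ≤ K → ∃ n₀ : ℕ, ∀ n, n₀ ≤ n → ∀ z : Fin K → Alt n,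
  TupleGap z 1 (9 / 10) → TupleGap z 2 (9 / 10) → ∀ P U : Finset (Fin n),
  (P.card : ℝ) ≤ (n : ℝ) ^ (0.1 : ℝ) → 50 * U.card ≤ n →
  prW K (jj n) (fun w => NE (up z) U P (jj n / 20) (rdw (jj n) w) ∨
    (rdw (jj n) w).length < jj n / 10) ≤ (n : ℝ) ^ (-0.3 : ℝ)

/-- SL, the sampler lemma (helper60, helper96, helper22): for every fixed set `P` the good `z`
without the sampler property for `P` are extremely rare. -/
def S_SL : Prop := ∀ K : ℕ, 20000 ≤ K → ∃ n₀ : ℕ, ∀ n, n₀ ≤ n → ∀ P : Finset (Fin n),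
  4000 * Real.log n ^ 2 ≤ (P.card : ℝ) → (P.card : ℝ) ≤ (n : ℝ) ^ (0.1 : ℝ) →
  ((univ.filter fun z : Fin K → Alt n => GD z ∧ ¬ SP z P).card : ℝ) ≤
    Real.exp (-(n : ℝ) ^ (0.8 : ℝ)) * (Fintype.card (Fin K → Alt n) : ℝ)

/-- TWO (helper25): drift and trace; deterministic. -/
def S_TWO : Prop := ∀ K : ℕ, 1 ≤ K → ∃ ε : ℝ, 0 < ε ∧ ∃ n₀ : ℕ, ∀ n, n₀ ≤ n → ∀ r : ℕ,
  Win 1 0.09 n r → ∀ (z : Fin K → Alt n) (y τ : Alt n),
  (τ : Perm (Fin n)).support.card = MM n r → SP z (τ : Perm (Fin n)).support →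
  SP z ((τ : Perm (Fin n)).support.image ((y : Perm (Fin n))⁻¹ : Perm (Fin n))) →
  rp (Fin.snoc z y : Fin (K + 1) → Alt n) r r ≤ Real.exp (-(ε * r)) ∨
    rp (Fin.snoc z (τ * y) : Fin (K + 1) → Alt n) r r ≤ Real.exp (-(ε * r))

/-- EXP (helper44, helper7): expurgation, from `S_SL` and `S_TWO`. `C = 4000` is enough. -/
def S_EXP : Prop := ∀ K : ℕ, 20000 ≤ K → ∃ ε : ℝ, 0 < ε ∧ ∃ n₀ : ℕ, ∀ n, n₀ ≤ n → ∀ r : ℕ,
  Win 4000 0.09 n r →
  ((univ.filter fun q : (Fin K → Alt n) × Alt n => GD q.1 ∧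
      Real.exp (-(ε * r)) < rp (Fin.snoc q.1 q.2 : Fin (K + 1) → Alt n) r r).card : ℝ) ≤
    (2 * (n : ℝ) ^ (-0.8 : ℝ) + 2 * n * Real.exp (-(n : ℝ) ^ (0.8 : ℝ))) *
      (Fintype.card ((Fin K → Alt n) × Alt n) : ℝ)

/-- MID (helper38): all levels at once, with probability tending to one. -/
def S_MID : Prop := ∃ k₀ : ℕ, ∀ k : ℕ, k₀ ≤ k → ∃ ε : ℝ, 0 < ε ∧
  Tendsto (fun n : ℕ => (Nat.card {z : Fin k → Alt n // ∀ r : ℕ, Win 10000 0.08 n r →
    rp z r r ≤ Real.exp (-(ε * r))} : ℝ) / Nat.card (Fin k → Alt n)) atTop (nhds 1)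

/-- DBL (helper83, helper28, helper44): one fresh generator multiplies the rate by `3/2` (time is
multiplied by a constant). -/
def S_DBL : Prop := ∀ (k a : ℕ) (b : ℝ), 1 ≤ k → 1 ≤ a → 0 < b → ∃ a' : ℕ, 1 ≤ a' ∧ ∃ c : ℝ, 0 < c ∧
  ∃ n₀ : ℕ, ∀ n, n₀ ≤ n → ∀ r : ℕ, Win 1 0.1 n r → ∀ z : Fin k → Alt n,
  rp z (a * r) r ≤ Real.exp (-(b * r)) →
  ((univ.filter fun y : Alt n => Real.exp (-(3 / 2 * b * r)) <
      rp (Fin.snoc z y : Fin (k + 1) → Alt n) (a' * r) r).card : ℝ) ≤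
    Real.exp (-(c * r)) * (Fintype.card (Alt n) : ℝ)

/-- MIDB (helper38): from `S_MID` and `S_DBL`: arbitrary constant rate with a constant number of
generators. -/
def S_MIDB : Prop := ∀ B : ℝ, ∃ k₀ : ℕ, ∀ k : ℕ, k₀ ≤ k → ∃ a : ℕ,
  Tendsto (fun n : ℕ => (Nat.card {z : Fin k → Alt n // ∀ r : ℕ, Win 10000 0.08 n r →
    rp z (a * r) r ≤ Real.exp (-(B * r))} : ℝ) / Nat.card (Fin k → Alt n)) atTop (nhds 1)

end Pool.Agent.Helper38.FS
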