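import Pool.Agent.Helper38.FS.Mid
import Pool.Agent.Helper7.FS.Exp
import Pool.Agent.Helper60.FS.SlFin
import Pool.Agent.Helper84.FS.Exit
import Pool.Agent.Helper25.FS.Two
import Pool.Agent.Helper22.FS.Fx

/-!
# MIDDLE is complete
-/

set_option autoImplicit false

namespace Pool.Agent.Helper38.FS

theorem s_sl : S_SL := Pool.Agent.Helper60.FS.S_SL_of Pool.Agent.Helper84.FS.exit

theorem s_exp : S_EXP := Pool.Agent.Helper7.FS.exp_of s_sl Pool.Agent.Helper25.FS.two

/-- with probability tending to one, for all levels `r` with `10000 log n ≤ n / r ≤ n ^ 0.08`, the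
average return probability of the lazy walk on injective `r`-tuples at time `r` is at most
`exp (-ε r)` -/
theorem s_mid : S_MID := mid s_exp Pool.Agent.Helper22.FS.fx

end Pool.Agent.Helper38.FS
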