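import Pool.Agent.Helper38.FS.Goals

/-!
# Project FS (MP_75608d_al), middle levels: the two halves of `S_EXIT`

Letter words of a fixed length `l` are functions `Fin l → Lt K`; `List.ofFn v` is the word.
-/

set_option autoImplicit false

namespace Pool.Agent.Helper38.FS

open Finset Equiv Filter
open Pool.Agent.Helper60.FS (act run pe ZZ FIX)
open Pool.Agent.Helper3.AK (Alt TupleGap lazyLaw)
open Classical

/-- STAY. Let `W` be the operator of the simple walk on functions on the points, `L = (1 + W) / 2`.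
For mean-zero `f`: `⟨f, L f⟩ ≤ (11/20) |f|²`, so for `f` with support in `U`:
`⟨f, L f⟩ ≤ (11/20 + |U|/n) |f|² ≤ 0.57 |f|²`. With `W_U = 1_U W 1_U` (a symmetric matrix with
nonnegative entries): `(2K)^m W_U^m p q` counts the words; entrywise
`C(2m, m) 4^(-m) W_U^m ≤ ((1 + W_U)/2)^(2m)` on `U` and `C(2m, m) 4^(-m) ≥ 1/(2m+1)`, and
`⟨δ_p, ((1 + W_U)/2)^(2m) 1_U⟩ ≤ √|U| (0.57)^(2m)` since `0 ≤ (1 + W_U)/2` (as a form)
`≤ 0.57` on functions with support in `U`. (The form `(1+W_U)/2` is nonnegative since `W ≥ -1`.) -/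
def S_STAY : Prop := ∀ (n K m : ℕ), 1 ≤ K → ∀ z : Fin K → Alt n, TupleGap z 1 (9 / 10) →
  ∀ U : Finset (Fin n), 50 * U.card ≤ n → ∀ p : Fin n,
  ((univ.filter fun v : Fin m → Lt K =>
      ∀ t ≤ m, run (up z) ((List.ofFn v).take t) p ∈ U).card : ℝ) ≤
    (2 * K) ^ m * ((2 * m + 1) * Real.sqrt n * (57 / 100) ^ (2 * m))

/-- MIX1. Point mixing of the simple walk, one sided gap only (`W^m ≤ (2m+1) L^(2m)` entrywise). -/
def S_MIX1 : Prop := ∀ (n K m : ℕ), 1 ≤ K → ∀ z : Fin K → Alt n, TupleGap z 1 (9 / 10) →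
  ∀ a b : Fin n,
  ((univ.filter fun v : Fin m → Lt K => run (up z) (List.ofFn v) a = b).card : ℝ) ≤
    (2 * K) ^ m * ((2 * m + 1) * (1 / n + (11 / 20) ^ (2 * m)))

/-- MIX2. Pair mixing of the simple walk. -/
def S_MIX2 : Prop := ∀ (n K m : ℕ), 1 ≤ K → ∀ z : Fin K → Alt n, TupleGap z 2 (9 / 10) →
  ∀ a b c d : Fin n, a ≠ b → c ≠ d →
  ((univ.filter fun v : Fin m → Lt K => run (up z) (List.ofFn v) a = c ∧
      run (up z) (List.ofFn v) b = d).card : ℝ) ≤
    (2 * K) ^ m * ((2 * m + 1) * (1 / (n * (n - 1)) + (11 / 20) ^ (2 * m)))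

/-- COL. Two different times of two different points: from `S_MIX1` (if `s' - s` is large) and
`S_MIX2` (if `s` is large: the pair at time `s` is nearly uniform and independent of the middle
word `g`; at most `n` pairs `(c, d)` satisfy `g c = d`). -/
def S_COL : Prop := ∀ (n K l h s s' : ℕ), 1 ≤ K → 2 ≤ n → ∀ z : Fin K → Alt n,
  TupleGap z 1 (9 / 10) → TupleGap z 2 (9 / 10) →
  (n : ℝ) ^ 2 * (11 / 20) ^ (2 * h) ≤ 1 → s < s' → s' ≤ l → 2 * h ≤ s' →
  ∀ a b : Fin n, a ≠ b →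
  ((univ.filter fun v : Fin l → Lt K => run (up z) ((List.ofFn v).take s') a =
      run (up z) ((List.ofFn v).take s) b).card : ℝ) ≤
    (2 * K) ^ l * (5 * (2 * l + 1) / n)

end Pool.Agent.Helper38.FS
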