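import Pool.Agent.Helper38.FS.Mono
import Pool.Agent.Helper6.H.Main

/-!
# MID: all levels of the window at once
-/

set_option autoImplicit false

namespace Pool.Agent.Helper38.FS

open Finset Equiv Filter Topology
open Pool.Agent.Helper3.AK (Alt TupleGap lazyLaw)
open Classical

variable {n K : ℕ}

/-- the good events for the old generators -/
noncomputable def G1 (n K : ℕ) : Finset (Fin K → Alt n) :=
  univ.filter fun z => TupleGap z 1 (9 / 10) ∧ TupleGap z 2 (9 / 10)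

theorem card_prod_filter {A B : Type} [Fintype A] [Fintype B] (p : A → Prop)
    (i₁ : DecidablePred p) (i₂ : DecidablePred fun q : A × B => p q.1) :
    ((@Finset.filter _ (fun q : A × B => p q.1) i₂ univ).card : ℝ) =
      ((@Finset.filter _ p i₁ univ).card : ℝ) * Fintype.card B := by
  have h : (@Finset.filter _ (fun q : A × B => p q.1) i₂ univ) =
      (@Finset.filter _ p i₁ univ) ×ˢ (univ : Finset B) := by
    ext q
    simp
  rw [h, Finset.card_product, Finset.card_univ]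
  push_cast
  rfl

/-- a level of the window is controlled by the power of two below it -/
theorem win_log {n r : ℕ} (h2 : 2 * (n : ℝ) ^ (0.08 : ℝ) ≤ (n : ℝ) ^ (0.09 : ℝ))
    (hlog : 0 ≤ Real.log n) (hr : Win 10000 0.08 n r) :
    Win 4000 0.09 n (2 ^ Nat.log 2 r) ∧ 2 ^ Nat.log 2 r ≤ r ∧ r < 2 * 2 ^ Nat.log 2 r := by
  obtain ⟨h1, h3, h4⟩ := hr
  have hr0 : r ≠ 0 := by omega
  have h5 : 2 ^ Nat.log 2 r ≤ r := Nat.pow_log_le_self 2 hr0
  have h6 : r < 2 * 2 ^ Nat.log 2 r := by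
    have := Nat.lt_pow_succ_log_self (b := 2) (by norm_num) r
    rw [pow_succ] at this
    omega
  have hp : 0 < 2 ^ Nat.log 2 r := by positivity
  have hr' : (0 : ℝ) < r := by
    have : 0 < r := by omega
    exact_mod_cast this
  have hp' : (0 : ℝ) < ((2 ^ Nat.log 2 r : ℕ) : ℝ) := by exact_mod_cast hp
  have h5' : ((2 ^ Nat.log 2 r : ℕ) : ℝ) ≤ r := by exact_mod_cast h5
  have h6' : (r : ℝ) ≤ 2 * ((2 ^ Nat.log 2 r : ℕ) : ℝ) := by exact_mod_cast h6.le
  refine ⟨⟨by omega, ?_, ?_⟩, h5, h6⟩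
  · calc 4000 * Real.log n ≤ 10000 * Real.log n := by linarith
      _ ≤ (n : ℝ) / r := h3
      _ ≤ (n : ℝ) / ((2 ^ Nat.log 2 r : ℕ) : ℝ) :=
          div_le_div_of_nonneg_left (Nat.cast_nonneg _) hp' h5'
  · calc (n : ℝ) / ((2 ^ Nat.log 2 r : ℕ) : ℝ) ≤ 2 * ((n : ℝ) / r) := by
          rw [div_le_iff₀ hp']
          calc (n : ℝ) = (n : ℝ) / r * r := by field_simp
            _ ≤ (n : ℝ) / r * (2 * ((2 ^ Nat.log 2 r : ℕ) : ℝ)) := by
                apply mul_le_mul_of_nonneg_left h6'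
                positivity
            _ = _ := by ring
      _ ≤ 2 * (n : ℝ) ^ (0.08 : ℝ) := by linarith
      _ ≤ _ := h2

/-- the bad pairs -/
theorem bad_subset (hK : 1 ≤ K) {ε : ℝ} (hε : 0 < ε)
    (h2 : 2 * (n : ℝ) ^ (0.08 : ℝ) ≤ (n : ℝ) ^ (0.09 : ℝ)) (hn : 1 ≤ n)
    (z : Fin K → Alt n) (y : Alt n) (hG : z ∈ G1 n K)
    (hfx : prW K (jj n) (fun w => ¬ Helper60.FS.FIX (up z) (rdw (jj n) w) (f0 n)) ≤
      (n : ℝ) ^ (-0.4 : ℝ))
    (hgood : ∀ i ∈ range (Nat.log 2 n + 1), Win 4000 0.09 n (2 ^ i) →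
      ¬ (GD z ∧ Real.exp (-(ε * ((2 ^ i : ℕ) : ℝ))) <
        rp (Fin.snoc z y : Fin (K + 1) → Alt n) (2 ^ i) (2 ^ i)))
    {r : ℕ} (hr : Win 10000 0.08 n r) :
    rp (Fin.snoc z y : Fin (K + 1) → Alt n) r r ≤ Real.exp (-(ε / 2 * r)) := by
  have hlog : 0 ≤ Real.log n := Real.log_natCast_nonneg n
  obtain ⟨hw, hle, hlt⟩ := win_log h2 hlog hr
  have hGD : GD z := by
    obtain ⟨h3, h4⟩ := (mem_filter.1 hG).2
    exact ⟨h3, h4, hfx⟩
  have hrn : r ≤ n := by
    by_contra hcon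
    push Not at hcon
    have hr1 := hr.2.1
    have h1 : (n : ℝ) / r < 1 := by
      have hr0 : (0 : ℝ) < r := by
        have : 0 < r := by omega
        exact_mod_cast this
      rw [div_lt_one hr0]
      exact_mod_cast hcon
    -- `n / r < 1` while the window asks for `10000 log n ≤ n / r`, so `n = 1`
    have hn1 : n = 1 := by
      by_contra hne
      have h3 : 2 ≤ n := by omega
      have h4 : Real.log 2 ≤ Real.log n := Real.log_le_log (by norm_num) (by exact_mod_cast h3)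
      have h5 := Real.log_two_gt_d9
      linarith
    subst hn1
    norm_num at h2
  have hi : Nat.log 2 r ∈ range (Nat.log 2 n + 1) := by
    rw [mem_range]
    exact Nat.lt_succ_of_le (Nat.log_mono_right hrn)
  have h3 := hgood _ hi hw
  have h4 : rp (Fin.snoc z y : Fin (K + 1) → Alt n) (2 ^ Nat.log 2 r) (2 ^ Nat.log 2 r) ≤
      Real.exp (-(ε * ((2 ^ Nat.log 2 r : ℕ) : ℝ))) := by
    by_contra hcon
    exact h3 ⟨hGD, lt_of_not_ge hcon⟩
  have hlt' : (r : ℝ) ≤ 2 * ((2 ^ Nat.log 2 r : ℕ) : ℝ) := by exact_mod_cast hlt.le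
  calc rp (Fin.snoc z y : Fin (K + 1) → Alt n) r r
      ≤ rp (Fin.snoc z y : Fin (K + 1) → Alt n) (2 ^ Nat.log 2 r) r :=
        rp_anti_time (by omega) _ hrn hle
    _ ≤ rp (Fin.snoc z y : Fin (K + 1) → Alt n) (2 ^ Nat.log 2 r) (2 ^ Nat.log 2 r) :=
        rp_anti_level _ _ hle
    _ ≤ Real.exp (-(ε * ((2 ^ Nat.log 2 r : ℕ) : ℝ))) := h4
    _ ≤ Real.exp (-(ε / 2 * r)) := by
        apply Real.exp_le_exp.2
        nlinarith

/-- the numbers of the union bound tend to zero -/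
theorem tendsto_small : Tendsto (fun n : ℕ => (n : ℝ) ^ (-0.1 : ℝ) + (Nat.log 2 n + 1) *
    (2 * (n : ℝ) ^ (-0.8 : ℝ) + 2 * n * Real.exp (-(n : ℝ) ^ (0.8 : ℝ)))) atTop (𝓝 0) := by
  have ha : ∀ a : ℝ, 0 < a → Tendsto (fun n : ℕ => (n : ℝ) ^ (-a)) atTop (𝓝 0) := fun a h =>
    (tendsto_rpow_neg_atTop h).comp tendsto_natCast_atTop_atTop
  have h1 := ha 0.1 (by norm_num)
  have h2 := (ha 0.1 (by norm_num)).const_mul 1000
  have h3 : Tendsto (fun n : ℕ => (n : ℝ) ^ (-0.1 : ℝ) + 1000 * (n : ℝ) ^ (-0.1 : ℝ)) atTop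
      (𝓝 0) := by
    have := h1.add h2
    simpa using this
  refine tendsto_of_tendsto_of_tendsto_of_le_of_le' tendsto_const_nhds h3 ?_ ?_
  · exact Eventually.of_forall fun n => by positivity
  · filter_upwards [eventually_ge_atTop 1] with n hn
    have hn1 : (1 : ℝ) ≤ n := by exact_mod_cast hn
    have hn0 : (0 : ℝ) < n := by linarith
    have hlog : ((Nat.log 2 n : ℕ) : ℝ) + 1 ≤ 20 * (n : ℝ) ^ (0.1 : ℝ) := by
      have h4 : ((Nat.log 2 n : ℕ) : ℝ) ≤ Real.logb 2 n := Real.natLog_le_logb n 2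
      have h5 : Real.logb 2 n ≤ 1.5 * Real.log n := by
        rw [Real.logb, div_le_iff₀ (Real.log_pos (by norm_num))]
        have h6 := Real.log_two_gt_d9
        have h7 : 0 ≤ Real.log n := Real.log_natCast_nonneg n
        nlinarith
      have h6 : Real.log n ≤ (n : ℝ) ^ (0.1 : ℝ) / 0.1 :=
        Real.log_le_rpow_div hn0.le (by norm_num)
      have h7 : (1 : ℝ) ≤ (n : ℝ) ^ (0.1 : ℝ) := Real.one_le_rpow hn1 (by norm_num)
      have h8 : (n : ℝ) ^ (0.1 : ℝ) / 0.1 = 10 * (n : ℝ) ^ (0.1 : ℝ) := by ring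
      rw [h8] at h6
      linarith
    have hexp : Real.exp (-(n : ℝ) ^ (0.8 : ℝ)) ≤ 6 * (n : ℝ) ^ (-2.4 : ℝ) := by
      have h4 : 0 ≤ (n : ℝ) ^ (0.8 : ℝ) := by positivity
      have h5 := Real.pow_div_factorial_le_exp ((n : ℝ) ^ (0.8 : ℝ)) h4 3
      have h6 : ((n : ℝ) ^ (0.8 : ℝ)) ^ 3 = (n : ℝ) ^ (2.4 : ℝ) := by
        rw [← Real.rpow_natCast, ← Real.rpow_mul hn0.le]
        norm_num
      rw [h6] at h5
      have h7 : (0 : ℝ) < (n : ℝ) ^ (2.4 : ℝ) := by positivity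
      rw [Real.exp_neg, Real.rpow_neg hn0.le]
      have h8 : ((n : ℝ) ^ (2.4 : ℝ) / 6)⁻¹ = 6 * ((n : ℝ) ^ (2.4 : ℝ))⁻¹ := by
        field_simp
      rw [← h8]
      apply inv_anti₀ (by positivity)
      have h9 : ((Nat.factorial 3 : ℕ) : ℝ) = 6 := by norm_num [Nat.factorial]
      rwa [h9] at h5
    have h8 : (n : ℝ) * (n : ℝ) ^ (-2.4 : ℝ) = (n : ℝ) ^ (-1.4 : ℝ) := by
      nth_rewrite 1 [← Real.rpow_one (n : ℝ)]
      rw [← Real.rpow_add hn0]
      norm_num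
    have h9 : (n : ℝ) ^ (-1.4 : ℝ) ≤ (n : ℝ) ^ (-0.8 : ℝ) :=
      Real.rpow_le_rpow_of_exponent_le hn1 (by norm_num)
    have h10 : 2 * (n : ℝ) ^ (-0.8 : ℝ) + 2 * n * Real.exp (-(n : ℝ) ^ (0.8 : ℝ)) ≤
        14 * (n : ℝ) ^ (-0.8 : ℝ) := by
      have h11 : 2 * (n : ℝ) * Real.exp (-(n : ℝ) ^ (0.8 : ℝ)) ≤
          2 * n * (6 * (n : ℝ) ^ (-2.4 : ℝ)) := by
        apply mul_le_mul_of_nonneg_left hexp
        positivity
      have h12 : 2 * (n : ℝ) * (6 * (n : ℝ) ^ (-2.4 : ℝ)) = 12 * (n : ℝ) ^ (-1.4 : ℝ) := by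
        rw [← h8]; ring
      rw [h12] at h11
      linarith
    have h13 : (n : ℝ) ^ (0.1 : ℝ) * (n : ℝ) ^ (-0.8 : ℝ) ≤ (n : ℝ) ^ (-0.1 : ℝ) := by
      rw [← Real.rpow_add hn0]
      exact Real.rpow_le_rpow_of_exponent_le hn1 (by norm_num)
    have h14 : ((Nat.log 2 n : ℕ) + 1 : ℝ) *
        (2 * (n : ℝ) ^ (-0.8 : ℝ) + 2 * n * Real.exp (-(n : ℝ) ^ (0.8 : ℝ))) ≤
        (20 * (n : ℝ) ^ (0.1 : ℝ)) * (14 * (n : ℝ) ^ (-0.8 : ℝ)) := by
      apply mul_le_mul hlog h10 (by positivity) (by positivity)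
    have h15 : (20 * (n : ℝ) ^ (0.1 : ℝ)) * (14 * (n : ℝ) ^ (-0.8 : ℝ)) =
        280 * ((n : ℝ) ^ (0.1 : ℝ) * (n : ℝ) ^ (-0.8 : ℝ)) := by ring
    have h16 : (0 : ℝ) ≤ (n : ℝ) ^ (-0.1 : ℝ) := by positivity
    rw [h15] at h14
    linarith

/-- the union bound for one `n` -/
theorem count_bad (hK : 1 ≤ K) {ε : ℝ} (hε : 0 < ε) (hn : 1 ≤ n)
    (h2 : 2 * (n : ℝ) ^ (0.08 : ℝ) ≤ (n : ℝ) ^ (0.09 : ℝ)) {δ₀ δ₁ δ₂ : ℝ} (hδ₂ : 0 ≤ δ₂)
    (hG : ((univ.filter fun z : Fin K → Alt n => z ∉ G1 n K).card : ℝ) ≤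
      δ₀ * Fintype.card (Fin K → Alt n))
    (hF : ((univ.filter fun z : Fin K → Alt n =>
      (n : ℝ) ^ (-0.4 : ℝ) < prW K (jj n) (fun w => ¬ Helper60.FS.FIX (up z) (rdw (jj n) w)
        (f0 n))).card : ℝ) ≤ δ₁ * Fintype.card (Fin K → Alt n))
    (hE : ∀ i : ℕ, Win 4000 0.09 n (2 ^ i) →
      ((univ.filter fun q : (Fin K → Alt n) × Alt n => GD q.1 ∧
        Real.exp (-(ε * ((2 ^ i : ℕ) : ℝ))) <
          rp (Fin.snoc q.1 q.2 : Fin (K + 1) → Alt n) (2 ^ i) (2 ^ i)).card : ℝ) ≤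
        δ₂ * Fintype.card ((Fin K → Alt n) × Alt n)) :
    ((univ.filter fun q : (Fin K → Alt n) × Alt n => ¬ ∀ r : ℕ, Win 10000 0.08 n r →
      rp (Fin.snoc q.1 q.2 : Fin (K + 1) → Alt n) r r ≤ Real.exp (-(ε / 2 * r))).card : ℝ) ≤
      (δ₀ + δ₁ + (Nat.log 2 n + 1) * δ₂) * Fintype.card ((Fin K → Alt n) × Alt n) := by
  set A : Finset ((Fin K → Alt n) × Alt n) := univ.filter fun q => q.1 ∉ G1 n K with hA
  set B : Finset ((Fin K → Alt n) × Alt n) := univ.filter fun q =>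
    (n : ℝ) ^ (-0.4 : ℝ) < prW K (jj n) (fun w => ¬ Helper60.FS.FIX (up q.1) (rdw (jj n) w)
        (f0 n)) with hB
  set D : ℕ → Finset ((Fin K → Alt n) × Alt n) := fun i => univ.filter fun q =>
    Win 4000 0.09 n (2 ^ i) ∧ (GD q.1 ∧ Real.exp (-(ε * ((2 ^ i : ℕ) : ℝ))) <
      rp (Fin.snoc q.1 q.2 : Fin (K + 1) → Alt n) (2 ^ i) (2 ^ i)) with hD
  have hsub : (univ.filter fun q : (Fin K → Alt n) × Alt n => ¬ ∀ r : ℕ, Win 10000 0.08 n r →
      rp (Fin.snoc q.1 q.2 : Fin (K + 1) → Alt n) r r ≤ Real.exp (-(ε / 2 * r))) ⊆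
      (A ∪ B) ∪ (range (Nat.log 2 n + 1)).biUnion D := by
    intro q hq
    have hq' := (mem_filter.1 hq).2
    by_contra hcon
    rw [mem_union, mem_union, not_or, not_or] at hcon
    obtain ⟨⟨hqA, hqB⟩, hqD⟩ := hcon
    apply hq'
    intro r hr
    have h3 : q.1 ∈ G1 n K := by
      by_contra h
      exact hqA (mem_filter.2 ⟨mem_univ _, h⟩)
    have h4 : prW K (jj n) (fun w => ¬ Helper60.FS.FIX (up q.1) (rdw (jj n) w) (f0 n)) ≤
        (n : ℝ) ^ (-0.4 : ℝ) := by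
      by_contra h
      exact hqB (mem_filter.2 ⟨mem_univ _, lt_of_not_ge h⟩)
    refine bad_subset hK hε h2 hn q.1 q.2 h3 h4 ?_ hr
    intro i hi hw hbad
    exact hqD (mem_biUnion.2 ⟨i, hi, mem_filter.2 ⟨mem_univ _, hw, hbad⟩⟩)
  have hcA : (A.card : ℝ) ≤ δ₀ * Fintype.card ((Fin K → Alt n) × Alt n) := by
    rw [Fintype.card_prod]
    push_cast
    calc (A.card : ℝ) = ((univ.filter fun z : Fin K → Alt n => z ∉ G1 n K).card : ℝ) *
          Fintype.card (Alt n) :=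
          card_prod_filter (B := Alt n) (fun z : Fin K → Alt n => z ∉ G1 n K) _ _
      _ ≤ δ₀ * Fintype.card (Fin K → Alt n) * Fintype.card (Alt n) := by gcongr
      _ = _ := by ring
  have hcB : (B.card : ℝ) ≤ δ₁ * Fintype.card ((Fin K → Alt n) × Alt n) := by
    rw [Fintype.card_prod]
    push_cast
    calc (B.card : ℝ) = ((univ.filter fun z : Fin K → Alt n => (n : ℝ) ^ (-0.4 : ℝ) <
          prW K (jj n) (fun w => ¬ Helper60.FS.FIX (up z) (rdw (jj n) w) (f0 n))).card : ℝ) *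
          Fintype.card (Alt n) :=
          card_prod_filter (B := Alt n) (fun z : Fin K → Alt n => (n : ℝ) ^ (-0.4 : ℝ) <
            prW K (jj n) (fun w => ¬ Helper60.FS.FIX (up z) (rdw (jj n) w) (f0 n))) _ _
      _ ≤ δ₁ * Fintype.card (Fin K → Alt n) * Fintype.card (Alt n) := by gcongr
      _ = _ := by ring
  have hcD : ∀ i, ((D i).card : ℝ) ≤ δ₂ * Fintype.card ((Fin K → Alt n) × Alt n) := by
    intro i
    by_cases hw : Win 4000 0.09 n (2 ^ i)
    · have : D i = univ.filter fun q : (Fin K → Alt n) × Alt n => GD q.1 ∧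
          Real.exp (-(ε * ((2 ^ i : ℕ) : ℝ))) <
          rp (Fin.snoc q.1 q.2 : Fin (K + 1) → Alt n) (2 ^ i) (2 ^ i) := by
        rw [hD]
        apply filter_congr
        intro q _
        simp only [hw, true_and]
      rw [this]
      exact hE i hw
    · have : D i = ∅ := by
        rw [hD]
        apply filter_false_of_mem
        intro q _ h
        exact hw h.1
      rw [this, card_empty, Nat.cast_zero]
      positivity
  calc _ ≤ (((A ∪ B) ∪ (range (Nat.log 2 n + 1)).biUnion D).card : ℝ) := by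
        exact_mod_cast card_le_card hsub
    _ ≤ ((A.card + B.card + ∑ i ∈ range (Nat.log 2 n + 1), (D i).card : ℕ) : ℝ) := by
        have h3 := card_union_le (A ∪ B) ((range (Nat.log 2 n + 1)).biUnion D)
        have h4 := card_union_le A B
        have h5 := card_biUnion_le (s := range (Nat.log 2 n + 1)) (t := D)
        exact_mod_cast (by omega)
    _ = (A.card : ℝ) + B.card + ∑ i ∈ range (Nat.log 2 n + 1), ((D i).card : ℝ) := by
        push_cast; ring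
    _ ≤ δ₀ * Fintype.card ((Fin K → Alt n) × Alt n) + δ₁ * Fintype.card ((Fin K → Alt n) × Alt n)
        + ∑ i ∈ range (Nat.log 2 n + 1), δ₂ * Fintype.card ((Fin K → Alt n) × Alt n) := by
        gcongr with i _
        exact hcD i
    _ = _ := by
        rw [sum_const, card_range, nsmul_eq_mul]
        push_cast
        ring

/-- `K + 1` generators as `K` generators and one more -/
def sn (K n : ℕ) : ((Fin K → Alt n) × Alt n) ≃ (Fin (K + 1) → Alt n) where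
  toFun q := Fin.snoc q.1 q.2
  invFun x := (Fin.init x, x (Fin.last K))
  left_inv q := by
    apply Prod.ext
    · exact Fin.init_snoc (α := fun _ => Alt n) q.2 q.1
    · exact Fin.snoc_last (α := fun _ => Alt n) q.2 q.1
  right_inv x := Fin.snoc_init_self x

theorem mid (hE : S_EXP) (hF : S_FX) : S_MID := by
  obtain ⟨K₁, hK₁⟩ := Pool.Agent.Helper6.H.main2 (2 / 5) (9 / 10) (by norm_num) (by norm_num)
  refine ⟨max K₁ 20000 + 1, fun k hk => ?_⟩
  obtain ⟨K, rfl⟩ : ∃ K, k = K + 1 := ⟨k - 1, by omega⟩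
  have hKK₁ : K₁ ≤ K := by
    have := le_max_left K₁ 20000
    omega
  have hK20 : 20000 ≤ K := by
    have := le_max_right K₁ 20000
    omega
  have hlim := hK₁ K hKK₁
  obtain ⟨ε, hε, n₁, hn₁⟩ := hE K hK20
  obtain ⟨n₂, hn₂⟩ := hF K (by omega)
  refine ⟨ε / 2, half_pos hε, ?_⟩
  set p : ℕ → ℝ := fun n : ℕ => (Nat.card {x : Fin K → Alt n // ∀ r : ℕ,
    (r : ℝ) ≤ (n : ℝ) ^ (2 / 5 : ℝ) → Helper6.FixK.GroupGap x r (9 / 10) ∧
      Helper6.FixK.TupleGap x r (9 / 10)} : ℝ) / Nat.card (Fin K → Alt n) with hp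
  have hlow : Tendsto (fun n : ℕ => 1 - ((1 - p n) + ((n : ℝ) ^ (-0.1 : ℝ) +
      (Nat.log 2 n + 1) * (2 * (n : ℝ) ^ (-0.8 : ℝ) +
        2 * n * Real.exp (-(n : ℝ) ^ (0.8 : ℝ)))))) atTop (𝓝 1) := by
    have h1 : Tendsto (fun n => 1 - p n) atTop (𝓝 (1 - 1)) := tendsto_const_nhds.sub hlim
    have h2 := (tendsto_const_nhds (x := (1 : ℝ)) (f := atTop (α := ℕ))).sub
      (h1.add tendsto_small)
    simpa using h2
  have hev1 : ∀ᶠ n : ℕ in atTop, 2 * (n : ℝ) ^ (0.08 : ℝ) ≤ (n : ℝ) ^ (0.09 : ℝ) := by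
    have h1 : Tendsto (fun n : ℕ => (n : ℝ) ^ (0.01 : ℝ)) atTop atTop :=
      (tendsto_rpow_atTop (by norm_num)).comp tendsto_natCast_atTop_atTop
    filter_upwards [h1.eventually_ge_atTop 2, eventually_ge_atTop 1] with n h2 hn
    have hn0 : (0 : ℝ) < n := by exact_mod_cast hn
    have h3 : (n : ℝ) ^ (0.09 : ℝ) = (n : ℝ) ^ (0.01 : ℝ) * (n : ℝ) ^ (0.08 : ℝ) := by
      rw [← Real.rpow_add hn0]
      norm_num
    rw [h3]
    apply mul_le_mul_of_nonneg_right h2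
    positivity
  have hev2 : ∀ᶠ n : ℕ in atTop, (2 : ℝ) ≤ (n : ℝ) ^ (2 / 5 : ℝ) :=
    ((tendsto_rpow_atTop (by norm_num)).comp tendsto_natCast_atTop_atTop).eventually_ge_atTop 2
  refine tendsto_of_tendsto_of_tendsto_of_le_of_le' hlow tendsto_const_nhds ?_ ?_
  · filter_upwards [hev1, hev2, eventually_ge_atTop 1, eventually_ge_atTop n₁,
      eventually_ge_atTop n₂] with n h2 h3 hn hn1 hn2
    have hT : (0 : ℝ) < Fintype.card (Fin K → Alt n) := by
      exact_mod_cast Fintype.card_pos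
    have hT' : (0 : ℝ) < Fintype.card ((Fin K → Alt n) × Alt n) := by
      exact_mod_cast Fintype.card_pos
    -- the old generators
    have hG : ((univ.filter fun z : Fin K → Alt n => z ∉ G1 n K).card : ℝ) ≤
        (1 - p n) * Fintype.card (Fin K → Alt n) := by
      have h4 : (Nat.card {x : Fin K → Alt n // ∀ r : ℕ,
          (r : ℝ) ≤ (n : ℝ) ^ (2 / 5 : ℝ) → Helper6.FixK.GroupGap x r (9 / 10) ∧
          Helper6.FixK.TupleGap x r (9 / 10)} : ℝ) ≤ ((G1 n K).card : ℝ) := by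
        rw [Nat.card_eq_fintype_card, Fintype.card_subtype]
        have : (univ.filter fun x : Fin K → Alt n => ∀ r : ℕ,
            (r : ℝ) ≤ (n : ℝ) ^ (2 / 5 : ℝ) → Helper6.FixK.GroupGap x r (9 / 10) ∧
            Helper6.FixK.TupleGap x r (9 / 10)) ⊆ G1 n K := by
          intro x hx
          have hx' := (mem_filter.1 hx).2
          refine mem_filter.2 ⟨mem_univ _, ?_, ?_⟩
          · exact (hx' 1 (by push_cast; linarith)).2
          · exact (hx' 2 (by push_cast; linarith)).2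
        exact_mod_cast card_le_card this
      have h5 : ((univ.filter fun z : Fin K → Alt n => z ∉ G1 n K).card : ℝ) + (G1 n K).card =
          Fintype.card (Fin K → Alt n) := by
        have h6 := Finset.card_filter_add_card_filter_not (s := (univ : Finset (Fin K → Alt n)))
          (fun z => z ∈ G1 n K)
        rw [filter_mem_eq_inter, univ_inter, card_univ] at h6
        exact_mod_cast (by omega)
      have h6 : p n * Fintype.card (Fin K → Alt n) = (Nat.card {x : Fin K → Alt n // ∀ r : ℕ,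
          (r : ℝ) ≤ (n : ℝ) ^ (2 / 5 : ℝ) → Helper6.FixK.GroupGap x r (9 / 10) ∧
          Helper6.FixK.TupleGap x r (9 / 10)} : ℝ) := by
        rw [hp]
        simp only [Nat.card_eq_fintype_card (α := Fin K → Alt n)]
        field_simp
      rw [sub_mul, one_mul, h6]
      linarith
    have hcb := count_bad (by omega) hε hn h2
      (show (0 : ℝ) ≤ 2 * (n : ℝ) ^ (-0.8 : ℝ) + 2 * n * Real.exp (-(n : ℝ) ^ (0.8 : ℝ)) by
        positivity) hG (hn₂ n hn2)
      (fun i hw => hn₁ n hn1 (2 ^ i) hw)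
    -- transfer to `K + 1` generators
    have h4 : Nat.card {z : Fin (K + 1) → Alt n // ∀ r : ℕ, Win 10000 0.08 n r →
        rp z r r ≤ Real.exp (-(ε / 2 * r))} =
        (univ.filter fun q : (Fin K → Alt n) × Alt n => ∀ r : ℕ, Win 10000 0.08 n r →
          rp (Fin.snoc q.1 q.2 : Fin (K + 1) → Alt n) r r ≤ Real.exp (-(ε / 2 * r))).card := by
      rw [← Fintype.card_subtype, ← Nat.card_eq_fintype_card]
      exact Nat.card_congr ((sn K n).subtypeEquiv fun q => Iff.rfl).symm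
    have h5 : Nat.card (Fin (K + 1) → Alt n) = Fintype.card ((Fin K → Alt n) × Alt n) := by
      rw [← Nat.card_eq_fintype_card]
      exact Nat.card_congr (sn K n).symm
    have h6 := Finset.card_filter_add_card_filter_not
      (s := (univ : Finset ((Fin K → Alt n) × Alt n)))
      (fun q => ∀ r : ℕ, Win 10000 0.08 n r →
          rp (Fin.snoc q.1 q.2 : Fin (K + 1) → Alt n) r r ≤ Real.exp (-(ε / 2 * r)))
    rw [card_univ] at h6
    have h6' : ((univ.filter fun q : (Fin K → Alt n) × Alt n => ∀ r : ℕ, Win 10000 0.08 n r →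
          rp (Fin.snoc q.1 q.2 : Fin (K + 1) → Alt n) r r ≤ Real.exp (-(ε / 2 * r))).card : ℝ) +
        ((univ.filter fun q : (Fin K → Alt n) × Alt n => ¬ ∀ r : ℕ, Win 10000 0.08 n r →
          rp (Fin.snoc q.1 q.2 : Fin (K + 1) → Alt n) r r ≤ Real.exp (-(ε / 2 * r))).card : ℝ) =
        Fintype.card ((Fin K → Alt n) × Alt n) := by exact_mod_cast h6
    rw [h4, h5, le_div_iff₀ hT']
    have h7 : (1 - ((1 - p n) + ((n : ℝ) ^ (-0.1 : ℝ) +
      (Nat.log 2 n + 1) * (2 * (n : ℝ) ^ (-0.8 : ℝ) +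
        2 * n * Real.exp (-(n : ℝ) ^ (0.8 : ℝ)))))) *
        (Fintype.card ((Fin K → Alt n) × Alt n) : ℝ) =
        Fintype.card ((Fin K → Alt n) × Alt n) - (((1 - p n) + (n : ℝ) ^ (-0.1 : ℝ) +
      (Nat.log 2 n + 1) * (2 * (n : ℝ) ^ (-0.8 : ℝ) +
        2 * n * Real.exp (-(n : ℝ) ^ (0.8 : ℝ))))) *
        (Fintype.card ((Fin K → Alt n) × Alt n) : ℝ) := by ring
    rw [h7]
    linarith
  · exact Eventually.of_forall fun n => by
      refine div_le_one_of_le₀ ?_ (Nat.cast_nonneg _)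
      exact_mod_cast Nat.card_le_card_of_injective _ Subtype.val_injective

end Pool.Agent.Helper38.FS
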