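import Pool.Agent.Helper38.FS.Goals
import Pool.Agent.Helper10.FS.Two

/-!
# Monotonicity of the return probabilities
-/

set_option autoImplicit false

namespace Pool.Agent.Helper38.FS

open Finset Equiv Filter Matrix
open Pool.Agent.Helper3.AK (Alt TupleGap lazyLaw)
open Pool.Agent.Helper10.FS

variable {n K : ℕ}

theorem lazyLaw_nonneg (z : Fin K → Alt n) : ∀ (t : ℕ) (g : Perm (Fin n)), 0 ≤ lazyLaw z t g
  | 0, g => by
    show 0 ≤ if g = 1 then (1 : ℝ) else 0
    split_ifs <;> norm_num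
  | t + 1, g => by
    show 0 ≤ (1 / 2) * lazyLaw z t g + (4 * (K : ℝ))⁻¹ *
      ∑ i, (lazyLaw z t (g * (z i : Perm (Fin n))⁻¹) + lazyLaw z t (g * (z i : Perm (Fin n))))
    have h1 := lazyLaw_nonneg z t g
    have h2 : 0 ≤ ∑ i, (lazyLaw z t (g * (z i : Perm (Fin n))⁻¹) +
        lazyLaw z t (g * (z i : Perm (Fin n)))) :=
      Finset.sum_nonneg fun i _ => add_nonneg (lazyLaw_nonneg z t _) (lazyLaw_nonneg z t _)
    positivity

/-- antitone in the level -/
theorem rp_succ_level (z : Fin K → Alt n) (t r : ℕ) : rp z t (r + 1) ≤ rp z t r := by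
  unfold rp
  refine Finset.sum_le_sum fun g _ => mul_le_mul_of_nonneg_left ?_ (lazyLaw_nonneg z t g)
  set F : ℕ := (univ.filter fun x => g x = x).card with hF
  have hFn : F ≤ n := by
    have := Finset.card_le_univ (univ.filter fun x : Fin n => g x = x)
    rwa [Fintype.card_fin] at this
  rw [Nat.descFactorial_succ, Nat.descFactorial_succ]
  push_cast
  by_cases hr : r < n
  · have hn : (0 : ℝ) < n.descFactorial r := by
      have := Nat.descFactorial_pos.2 hr.le
      exact_mod_cast this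
    have hd : (0 : ℝ) < ((n - r : ℕ) : ℝ) := by
      have : 0 < n - r := Nat.sub_pos_of_lt hr
      exact_mod_cast this
    have hle : ((F - r : ℕ) : ℝ) ≤ ((n - r : ℕ) : ℝ) := by
      exact_mod_cast Nat.sub_le_sub_right hFn r
    rw [mul_div_mul_comm]
    have h1 : ((F - r : ℕ) : ℝ) / ((n - r : ℕ) : ℝ) ≤ 1 := (div_le_one hd).2 hle
    have h2 : (0 : ℝ) ≤ (F.descFactorial r : ℝ) / (n.descFactorial r : ℝ) := by positivity
    calc ((F - r : ℕ) : ℝ) / ((n - r : ℕ) : ℝ) * ((F.descFactorial r : ℝ) / (n.descFactorial r : ℝ))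
        ≤ 1 * ((F.descFactorial r : ℝ) / (n.descFactorial r : ℝ)) :=
          mul_le_mul_of_nonneg_right h1 h2
      _ = _ := one_mul _
  · have h0 : n - r = 0 := by omega
    have h1 : F - r = 0 := by omega
    rw [h0, h1]
    simp only [Nat.cast_zero, zero_mul, div_zero]
    positivity

theorem rp_anti_level (z : Fin K → Alt n) (t : ℕ) {r r' : ℕ} (h : r ≤ r') :
    rp z t r' ≤ rp z t r := by
  induction r', h using Nat.le_induction with
  | base => exact le_rfl
  | succ m _ ih => exact (rp_succ_level z t m).trans ih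

/-- antitone in time -/
theorem rp_succ_time (hK : 1 ≤ K) (z : Fin K → Alt n) {r : ℕ} (hr : r ≤ n) (t : ℕ) :
    rp z (t + 1) r ≤ rp z t r := by
  have hD : (0 : ℝ) < n.descFactorial r := by
    have := Nat.descFactorial_pos.2 hr
    exact_mod_cast this
  have h1 := trace_Lp (r := r) z t
  have h2 := trace_Lp (r := r) z (t + 1)
  obtain ⟨U, d, hU, hU', hL, hd⟩ := spec_psd (Lp_psd hK (fun i => emb n r (z i : Perm (Fin n))))
  have hd1 : ∀ i, d i ≤ 1 := by
    intro i
    have h3 := Lp_le hK (fun i => emb n r (z i : Perm (Fin n))) (Pool.Agent.Helper10.FS.col U i)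
    rw [hL, qf_col hU, col_col hU, if_pos rfl] at h3
    exact h3
  rw [hL, pow_udu hU hU', trace_udu hU] at h1 h2
  have h3 : ∑ i, d i ^ (t + 1) ≤ ∑ i, d i ^ t := by
    refine Finset.sum_le_sum fun i _ => ?_
    rw [pow_succ]
    exact mul_le_of_le_one_right (pow_nonneg (hd i) t) (hd1 i)
  rw [h1, h2] at h3
  exact le_of_mul_le_mul_left h3 hD

theorem rp_anti_time (hK : 1 ≤ K) (z : Fin K → Alt n) {r : ℕ} (hr : r ≤ n) {t t' : ℕ}
    (h : t ≤ t') : rp z t' r ≤ rp z t r := by
  induction t', h using Nat.le_induction with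
  | base => exact le_rfl
  | succ m _ ih => exact (rp_succ_time hK z hr m).trans ih

end Pool.Agent.Helper38.FS
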